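import Mathlib

set_option autoImplicit false

/-!
# Descent for additive squares through block codes with a rotating phase

`w` is a cube root of unity (`w ^ 2 + w + 1 = 0`) in a commutative ring, `s` a binary sequence,
`SS w s n = ∑_{i < n} s i * w ^ i`. A function `F` is coded by `s` with blocks of length `L` if
`F (L q + r) = C0 * (1 + w + ... + w ^ (q-1)) + μ * SS w s q + w ^ q * φ (s q) r`. A finite certificate
(`Cert`) makes every relation `F n0 + F n2 = 2 F n1`, `n0 + n2 = 2 n1`, descend to one of `SS w s`.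
-/

namespace Pool.Agent.K7.H27.MK

open Finset

variable {R : Type*} [CommRing R]

/-- the partial sums of `s i * w ^ i` -/
def SS (w : R) (s : ℕ → ℕ) (n : ℕ) : R := ∑ i ∈ range n, (s i : R) * w ^ i

/-- the geometric sums -/
def EE (w : R) (n : ℕ) : R := ∑ i ∈ range n, w ^ i

/-- an additive square of period `3 m` of the phased sequence, at position `a` -/
structure Sq (w : R) (s : ℕ → ℕ) (a m : ℕ) : Prop where
  pos : 0 < m
  eq : SS w s a + SS w s (a + 6 * m) = 2 * SS w s (a + 3 * m)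

/-- the coincidences that are explained by an additive square of `s` -/
def Mat (w : R) (P L c δ r0 r1 b0 b1 b2 : ℕ) (d : R) : Prop :=
  (c = 1 ∧ δ = 0 ∧ (d = 0 ∨ d = (b0 : R) + b2 - 2 * b1) ∧ (b0 = b1 → b1 = b2 → r1 < r0 + P)) ∨
  (c = 0 ∧ δ = 2 ∧ d = ((b2 : R) - 2 * b1) * w ^ 2) ∨
  (c = 0 ∧ δ = 0 ∧ d = (b0 : R) - 2 * b1 ∧ (b0 = b1 → r1 < r0 + P)) ∨
  (c = 2 ∧ δ = 1 ∧ d = (b0 : R) ∧ (b1 = b2 → L + r1 < r0 + P)) ∨
  (c = 2 ∧ δ = 0 ∧ d = (b2 : R) * w ^ 2)

/-- the finite certificate -/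
def Cert (w μ C0 : R) (φ : ℕ → ℕ → R) (L P t : ℕ) : Prop :=
  ∀ r0 r1 r2 c δ b0 b1 b2 : ℕ, r0 < L → r1 < L → r2 < L → c < 3 → δ < 3 → b0 < 2 → b1 < 2 → b2 < 2 →
    r0 + r2 + L = 2 * r1 + L * c → (δ * L + r1) % t = r0 % t →
    ∀ d : R, C0 * (EE w ((2 * δ + 4 - c) % 3) - 2 * EE w δ) + φ b0 r0
        + w ^ ((2 * δ + 4 - c) % 3) * φ b2 r2 - 2 * w ^ δ * φ b1 r1 = μ * d →
      Mat w P L c δ r0 r1 b0 b1 b2 d

theorem SS_succ (w : R) (s : ℕ → ℕ) (n : ℕ) : SS w s (n + 1) = SS w s n + (s n : R) * w ^ n := by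
  simp [SS, sum_range_succ]

theorem EE_succ (w : R) (n : ℕ) : EE w (n + 1) = EE w n + w ^ n := by
  simp [EE, sum_range_succ]

theorem EE_add (w : R) (a k : ℕ) : EE w (a + k) = EE w a + w ^ a * EE w k := by
  induction k with
  | zero => simp [EE]
  | succ k ih => rw [← add_assoc, EE_succ, EE_succ, ih]; ring

theorem EE_three {w : R} (hw : w ^ 2 + w + 1 = 0) : EE w 3 = 0 := by
  simp only [EE, sum_range_succ, sum_range_zero]
  linear_combination hw

theorem cube {w : R} (hw : w ^ 2 + w + 1 = 0) : w ^ 3 = 1 := by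
  linear_combination (w - 1) * hw

theorem EE_mod {w : R} (hw : w ^ 2 + w + 1 = 0) (k : ℕ) : EE w k = EE w (k % 3) := by
  induction k using Nat.strong_induction_on with
  | _ k ih =>
    by_cases h : k < 3
    · rw [Nat.mod_eq_of_lt h]
    · obtain ⟨j, rfl⟩ : ∃ j, k = 3 + j := ⟨k - 3, by omega⟩
      rw [EE_add, EE_three hw, cube hw, ih j (by omega)]
      simp

theorem pow_three_mul {w : R} (hw : w ^ 2 + w + 1 = 0) (k : ℕ) : w ^ (3 * k) = 1 := by
  rw [pow_mul, cube hw, one_pow]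

theorem pow_congr3 {w : R} (hw : w ^ 2 + w + 1 = 0) {a b : ℕ} (h : a % 3 = b % 3) : w ^ a = w ^ b := by
  rw [pow_eq_pow_mod a (cube hw), pow_eq_pow_mod b (cube hw), h]

/-- The descent lemma. -/
theorem desc {w μ C0 : R} (hw : w ^ 2 + w + 1 = 0) {s : ℕ → ℕ} (hs : ∀ i, s i < 2) {L P t : ℕ}
    (hL : 0 < L) (ht3 : t ∣ 3) {φ : ℕ → ℕ → R} {F : ℕ → R}
    (hF : ∀ q r, r < L → F (L * q + r) = C0 * EE w q + μ * SS w s q + w ^ q * φ (s q) r)
    (cert : Cert w μ C0 φ L P t) {n0 n1 n2 : ℕ} (hn : n0 + n2 = 2 * n1) (hP : n0 + P ≤ n1)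
    (ht : n1 % t = n0 % t) (heq : F n0 + F n2 = 2 * F n1) (hlt : n0 < n1) :
    ∃ a m, Sq w s a m ∧ a + 6 * m ≤ n2 / L + 1 := by
  have hq01 : n0 / L ≤ n1 / L := Nat.div_le_div_right (by omega)
  have hq12 : n1 / L ≤ n2 / L := Nat.div_le_div_right (by omega)
  have e0 : L * (n0 / L) + n0 % L = n0 := Nat.div_add_mod n0 L
  have e1 : L * (n1 / L) + n1 % L = n1 := Nat.div_add_mod n1 L
  have e2 : L * (n2 / L) + n2 % L = n2 := Nat.div_add_mod n2 L
  have l0 : n0 % L < L := Nat.mod_lt _ hL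
  have l1 : n1 % L < L := Nat.mod_lt _ hL
  have l2 : n2 % L < L := Nat.mod_lt _ hL
  generalize n0 / L = q0 at *
  generalize n1 / L = q1 at *
  generalize n2 / L = q2 at *
  generalize n0 % L = r0 at *
  generalize n1 % L = r1 at *
  generalize n2 % L = r2 at *
  have f0 : F n0 = C0 * EE w q0 + μ * SS w s q0 + w ^ q0 * φ (s q0) r0 := by rw [← e0]; exact hF q0 r0 l0
  have f1 : F n1 = C0 * EE w q1 + μ * SS w s q1 + w ^ q1 * φ (s q1) r1 := by rw [← e1]; exact hF q1 r1 l1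
  have f2 : F n2 = C0 * EE w q2 + μ * SS w s q2 + w ^ q2 * φ (s q2) r2 := by rw [← e2]; exact hF q2 r2 l2
  have hsum : L * (q0 + q2) + (r0 + r2) = L * (2 * q1) + 2 * r1 := by
    have : L * q0 + r0 + (L * q2 + r2) = 2 * (L * q1 + r1) := by rw [e0, e1, e2]; exact hn
    linarith
  have hA : q0 + q2 < 2 * q1 + 2 := by
    by_contra hc
    have : L * (2 * q1 + 2) ≤ L * (q0 + q2) := Nat.mul_le_mul_left L (by omega)
    have h2 : L * (2 * q1 + 2) = L * (2 * q1) + 2 * L := by ring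
    omega
  have hB : 2 * q1 < q0 + q2 + 2 := by
    by_contra hc
    have : L * (q0 + q2 + 2) ≤ L * (2 * q1) := Nat.mul_le_mul_left L (by omega)
    have h2 : L * (q0 + q2 + 2) = L * (q0 + q2) + 2 * L := by ring
    omega
  obtain ⟨c, hc3, hc⟩ : ∃ c, c < 3 ∧ q0 + q2 + c = 2 * q1 + 1 := ⟨2 * q1 + 1 - (q0 + q2), by omega, by omega⟩
  have hr : r0 + r2 + L = 2 * r1 + L * c := by
    have : L * (q0 + q2 + c) = L * (2 * q1 + 1) := by rw [hc]
    have h1 : L * (q0 + q2 + c) = L * (q0 + q2) + L * c := by ring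
    have h2 : L * (2 * q1 + 1) = L * (2 * q1) + L := by ring
    omega
  obtain ⟨k1, rfl⟩ : ∃ k1, q1 = q0 + k1 := ⟨q1 - q0, by omega⟩
  obtain ⟨k2, rfl⟩ : ∃ k2, q2 = q0 + k2 := ⟨q2 - q0, by omega⟩
  have hk : k2 + c = 2 * k1 + 1 := by omega
  have hδ3 : k1 % 3 < 3 := Nat.mod_lt _ (by norm_num)
  have hk2 : (2 * (k1 % 3) + 4 - c) % 3 = k2 % 3 := by omega
  -- the phase condition
  have hmod : (k1 % 3 * L + r1) % t = r0 % t := by
    have h3 : (L * k1 + r1) % t = r0 % t := by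
      have h4 : (L * (q0 + k1) + r1) % t = (L * q0 + r0) % t := by rw [e0, e1]; exact ht
      have h5 : L * q0 + (L * k1 + r1) ≡ L * q0 + r0 [MOD t] := by
        have : L * (q0 + k1) + r1 = L * q0 + (L * k1 + r1) := by ring
        rw [this] at h4; exact h4
      exact Nat.ModEq.add_left_cancel' _ h5
    have h6 : k1 % 3 ≡ k1 [MOD t] := by
      have : k1 % 3 ≡ k1 [MOD 3] := Nat.mod_modEq k1 3
      exact this.of_dvd ht3
    have h7 : k1 % 3 * L + r1 ≡ L * k1 + r1 [MOD t] := by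
      have := (h6.mul_right L).add_right r1
      rwa [mul_comm k1 L] at this
    exact h7.trans h3
  -- the equation
  set D : R := SS w s q0 + SS w s (q0 + k2) - 2 * SS w s (q0 + k1) with hD
  have hX : C0 * (EE w ((2 * (k1 % 3) + 4 - c) % 3) - 2 * EE w (k1 % 3)) + φ (s q0) r0
      + w ^ ((2 * (k1 % 3) + 4 - c) % 3) * φ (s (q0 + k2)) r2 - 2 * w ^ (k1 % 3) * φ (s (q0 + k1)) r1
      = μ * (-(w ^ (2 * q0) * D)) := by
    rw [hk2, ← EE_mod hw k2, ← EE_mod hw k1, pow_congr3 hw (Nat.mod_mod k2 3),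
      pow_congr3 hw (Nat.mod_mod k1 3)]
    have h1 := EE_add w q0 k1
    have h2 := EE_add w q0 k2
    have h3 : w ^ (q0 + k1) = w ^ q0 * w ^ k1 := pow_add _ _ _
    have h4 : w ^ (q0 + k2) = w ^ q0 * w ^ k2 := pow_add _ _ _
    have h5 : w ^ q0 * w ^ (2 * q0) = 1 := by rw [← pow_add, ← pow_three_mul hw q0]; congr 1; ring
    rw [f0, f1, f2, h1, h2, h3, h4] at heq
    rw [hD]
    generalize w ^ q0 = u at *
    generalize w ^ (2 * q0) = v at *
    linear_combination v * heq - (C0 * (EE w k2 - 2 * EE w k1) + φ (s q0) r0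
      + w ^ k2 * φ (s (q0 + k2)) r2 - 2 * w ^ k1 * φ (s (q0 + k1)) r1) * h5
  have hm := cert r0 r1 r2 c (k1 % 3) (s q0) (s (q0 + k1)) (s (q0 + k2)) l0 l1 l2 hc3 hδ3 (hs _) (hs _) (hs _)
    hr hmod _ hX
  have hDd : ∀ d : R, -(w ^ (2 * q0) * D) = d → D = -(w ^ q0 * d) := by
    intro d hd
    have h5 : w ^ q0 * w ^ (2 * q0) = 1 := by rw [← pow_add, ← pow_three_mul hw q0]; congr 1; ring
    rw [← hd]
    linear_combination (-D) * h5
  rcases hm with ⟨rfl, hδ, hd, hg⟩ | ⟨rfl, hδ, hd⟩ | ⟨rfl, hδ, hd, hg⟩ | ⟨rfl, hδ, hd, hg⟩ | ⟨rfl, hδ, hd⟩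
  · -- c = 1, δ = 0
    have hk1 : w ^ (q0 + k1) = w ^ q0 := pow_congr3 hw (by omega)
    have hk2' : w ^ (q0 + k2) = w ^ q0 := pow_congr3 hw (by omega)
    have hpos : 0 < k1 := by
      rcases Nat.eq_zero_or_pos k1 with h0 | h0
      · exfalso
        subst h0
        have : k2 = 0 := by omega
        subst this
        have := hg (by simp) (by simp)
        simp only [add_zero] at e1
        omega
      · exact h0
    rcases hd with hd | hd
    · refine ⟨q0, k1 / 3, ⟨by omega, ?_⟩, by omega⟩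
      have hD0 : D = 0 := by rw [hDd _ hd]; ring
      have a1 : q0 + 6 * (k1 / 3) = q0 + k2 := by omega
      have a2 : q0 + 3 * (k1 / 3) = q0 + k1 := by omega
      rw [a1, a2]
      linear_combination hD0
    · refine ⟨q0 + 1, k1 / 3, ⟨by omega, ?_⟩, by omega⟩
      have hD0 := hDd _ hd
      have a1 : q0 + 1 + 6 * (k1 / 3) = q0 + k2 + 1 := by omega
      have a2 : q0 + 1 + 3 * (k1 / 3) = q0 + k1 + 1 := by omega
      rw [a1, a2, SS_succ, SS_succ, SS_succ, hk1, hk2']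
      linear_combination hD0
  · -- c = 0, δ = 2
    have hk1 : w ^ (q0 + k1) = w ^ q0 * w ^ 2 := by rw [← pow_add]; exact pow_congr3 hw (by omega)
    have hk2' : w ^ (q0 + k2) = w ^ q0 * w ^ 2 := by rw [← pow_add]; exact pow_congr3 hw (by omega)
    refine ⟨q0, (k1 + 1) / 3, ⟨by omega, ?_⟩, by omega⟩
    have hD0 := hDd _ hd
    have a1 : q0 + 6 * ((k1 + 1) / 3) = q0 + k2 + 1 := by omega
    have a2 : q0 + 3 * ((k1 + 1) / 3) = q0 + k1 + 1 := by omega
    rw [a1, a2, SS_succ, SS_succ, hk1, hk2']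
    linear_combination hD0
  · -- c = 0, δ = 0
    have hk1 : w ^ (q0 + k1) = w ^ q0 := pow_congr3 hw (by omega)
    have hpos : 0 < k1 := by
      rcases Nat.eq_zero_or_pos k1 with h0 | h0
      · exfalso
        subst h0
        have := hg (by simp)
        simp only [add_zero] at e1
        omega
      · exact h0
    refine ⟨q0 + 1, k1 / 3, ⟨by omega, ?_⟩, by omega⟩
    have hD0 := hDd _ hd
    have a1 : q0 + 1 + 6 * (k1 / 3) = q0 + k2 := by omega
    have a2 : q0 + 1 + 3 * (k1 / 3) = q0 + k1 + 1 := by omega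
    rw [a1, a2, SS_succ, SS_succ, hk1]
    linear_combination hD0
  · -- c = 2, δ = 1
    have hpos : 1 < k1 := by
      by_contra h0
      have h1 : k1 = 1 := by omega
      subst h1
      have h2 : k2 = 1 := by omega
      subst h2
      have := hg rfl
      have e1' : L * (q0 + 1) = L * q0 + L := by ring
      omega
    refine ⟨q0 + 1, (k1 - 1) / 3, ⟨by omega, ?_⟩, by omega⟩
    have hD0 := hDd _ hd
    have a1 : q0 + 1 + 6 * ((k1 - 1) / 3) = q0 + k2 := by omega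
    have a2 : q0 + 1 + 3 * ((k1 - 1) / 3) = q0 + k1 := by omega
    rw [a1, a2, SS_succ]
    linear_combination hD0
  · -- c = 2, δ = 0
    have hk2' : w ^ (q0 + k2) = w ^ q0 * w ^ 2 := by rw [← pow_add]; exact pow_congr3 hw (by omega)
    refine ⟨q0, k1 / 3, ⟨by omega, ?_⟩, by omega⟩
    have hD0 := hDd _ hd
    have a1 : q0 + 6 * (k1 / 3) = q0 + k2 + 1 := by omega
    have a2 : q0 + 3 * (k1 / 3) = q0 + k1 := by omega
    rw [a1, a2, SS_succ, hk2']
    linear_combination hD0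

end Pool.Agent.K7.H27.MK
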