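import Mathlib
import Pool.Agent.K7.H27.MK.Desc

set_option autoImplicit false

/-!
# The self-similar binary sequence and the ternary word coded by it
-/

namespace Pool.Agent.K7.H27.MK

open Finset

variable {R : Type*} [CommRing R]

/-- path of the binary block `h b` -/
def pA (w : R) (h : ℕ → ℕ → ℕ) (b r : ℕ) : R := ∑ i ∈ range r, (h b i : R) * w ^ i

/-- path of the ternary block `g b` -/
def pB (w : R) (g : ℕ → ℕ → ℕ) (b r : ℕ) : R := ∑ i ∈ range r, w ^ (g b i)

theorem pA_succ (w : R) (h : ℕ → ℕ → ℕ) (b r : ℕ) :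
    pA w h b (r + 1) = pA w h b r + (h b r : R) * w ^ r := by simp [pA, sum_range_succ]

theorem pB_succ (w : R) (g : ℕ → ℕ → ℕ) (b r : ℕ) :
    pB w g b (r + 1) = pB w g b r + w ^ (g b r) := by simp [pB, sum_range_succ]

theorem binary_split {x0 x1 : R} {b : ℕ} (hb : b < 2) (f : ℕ → R) (h0 : f 0 = x0) (h1 : f 1 = x1) :
    f b = x0 + (x1 - x0) * (b : R) := by
  interval_cases b
  · simp [h0]
  · simp [h1]

theorem codeA {w : R} (hw : w ^ 2 + w + 1 = 0) {s : ℕ → ℕ} (hs : ∀ i, s i < 2) {h : ℕ → ℕ → ℕ} {N : ℕ}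
    (hN3 : N % 3 = 1) (hsh : ∀ q r, r < N → s (N * q + r) = h (s q) r) (q r : ℕ) (hr : r < N) :
    SS w s (N * q + r) = pA w h 0 N * EE w q + (pA w h 1 N - pA w h 0 N) * SS w s q
      + w ^ q * pA w h (s q) r := by
  have step : ∀ q r, r ≤ N → SS w s (N * q + r) = SS w s (N * q) + w ^ q * pA w h (s q) r := by
    intro q r
    induction r with
    | zero => intro _; simp [pA]
    | succ r ih =>
      intro hr
      rw [← add_assoc, SS_succ, ih (by omega), pA_succ, hsh q r (by omega)]
      have : w ^ (N * q + r) = w ^ q * w ^ r := by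
        rw [← pow_add]
        apply pow_congr3 hw
        have h1 : N * q % 3 = q % 3 := by
          rw [Nat.mul_mod, hN3, one_mul, Nat.mod_mod]
        omega
      rw [this]; ring
  have base : ∀ q, SS w s (N * q) = pA w h 0 N * EE w q + (pA w h 1 N - pA w h 0 N) * SS w s q := by
    intro q
    induction q with
    | zero => simp [SS, EE]
    | succ q ih =>
      have : N * (q + 1) = N * q + N := by ring
      rw [this, step q N le_rfl, ih, EE_succ, SS_succ,
        binary_split (hs q) (fun b => pA w h b N) rfl rfl]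
      ring
  rw [step q r hr.le, base]

/-- the self-similar sequence -/
def sk (h : ℕ → ℕ → ℕ) (N : ℕ) (n : ℕ) : ℕ :=
  if hn : 0 < n ∧ 2 ≤ N then h (sk h N (n / N)) (n % N) else 0
termination_by n
decreasing_by exact Nat.div_lt_self hn.1 (by omega)

theorem sk_lt {h : ℕ → ℕ → ℕ} (hh : ∀ b i, h b i < 2) (N n : ℕ) : sk h N n < 2 := by
  rw [sk]; split_ifs
  · exact hh _ _
  · norm_num

theorem sk_eq {h : ℕ → ℕ → ℕ} {N : ℕ} (hN : 2 ≤ N) (h00 : h 0 0 = 0) (q r : ℕ) (hr : r < N) :
    sk h N (N * q + r) = h (sk h N q) r := by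
  rw [sk]
  split_ifs with h1
  · have e1 : (N * q + r) / N = q := by
      rw [Nat.mul_add_div (by omega), Nat.div_eq_of_lt hr, add_zero]
    have e2 : (N * q + r) % N = r := by
      rw [Nat.mul_add_mod, Nat.mod_eq_of_lt hr]
    rw [e1, e2]
  · have h2 : N * q + r = 0 := by
      by_contra h3
      exact h1 ⟨Nat.pos_of_ne_zero h3, hN⟩
    have h3 : r = 0 := by omega
    have h4 : q = 0 := by
      have : N * q = 0 := by omega
      rcases Nat.mul_eq_zero.mp this with h | h
      · omega
      · exact h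
    subst h3; subst h4
    have : sk h N 0 = 0 := by rw [sk]; simp
    rw [this, h00]

/-- the self-similar sequence has no additive square of period divisible by three -/
theorem no_sq {w : R} (hw : w ^ 2 + w + 1 = 0) {s : ℕ → ℕ} (hs : ∀ i, s i < 2) {h : ℕ → ℕ → ℕ} {N : ℕ}
    (hN2 : 2 ≤ N) (hN3 : N % 3 = 1) (hsh : ∀ q r, r < N → s (N * q + r) = h (s q) r)
    (cert : Cert w (pA w h 1 N - pA w h 0 N) (pA w h 0 N) (pA w h) N 1 3) (a m : ℕ) :
    ¬ Sq w s a m := by
  have key : ∀ k a m, a + 6 * m ≤ k → ¬ Sq w s a m := by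
    intro k
    induction k with
    | zero =>
      intro a m hk hsq
      have := hsq.pos
      omega
    | succ k ih =>
      intro a m hk hsq
      have hpos := hsq.pos
      obtain ⟨a', m', hsq', hle⟩ := desc (P := 1) (t := 3) hw hs (by omega : 0 < N) (dvd_refl 3)
        (F := SS w s) (φ := pA w h) (fun q r hr => codeA hw hs hN3 hsh q r hr) cert
        (n0 := a) (n1 := a + 3 * m) (n2 := a + 6 * m) (by omega) (by omega) (by omega) hsq.eq (by omega)
      have h4 : (a + 6 * m) / N + 1 < a + 6 * m := by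
        have : (a + 6 * m) / N ≤ (a + 6 * m) / 2 := Nat.div_le_div_left hN2 (by norm_num)
        omega
      exact ih a' m' (by omega) hsq'
  exact key _ a m le_rfl

/-- the ternary word -/
def tw (g : ℕ → ℕ → ℕ) (s : ℕ → ℕ) (l n : ℕ) : ℕ := (g (s (n / l)) (n % l) + n / l) % 3

/-- positions of the ternary word -/
def TW (w : R) (g : ℕ → ℕ → ℕ) (s : ℕ → ℕ) (l n : ℕ) : R := ∑ i ∈ range n, w ^ (tw g s l i)

theorem TW_succ (w : R) (g : ℕ → ℕ → ℕ) (s : ℕ → ℕ) (l n : ℕ) :
    TW w g s l (n + 1) = TW w g s l n + w ^ (tw g s l n) := by simp [TW, sum_range_succ]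

theorem codeB {w : R} (hw : w ^ 2 + w + 1 = 0) {s : ℕ → ℕ} (hs : ∀ i, s i < 2) {g : ℕ → ℕ → ℕ} {l : ℕ}
    (hl : 0 < l) (q r : ℕ) (hr : r < l) :
    TW w g s l (l * q + r) = pB w g 0 l * EE w q + (pB w g 1 l - pB w g 0 l) * SS w s q
      + w ^ q * pB w g (s q) r := by
  have step : ∀ q r, r ≤ l → TW w g s l (l * q + r) = TW w g s l (l * q) + w ^ q * pB w g (s q) r := by
    intro q r
    induction r with
    | zero => intro _; simp [pB]
    | succ r ih =>
      intro hr
      rw [← add_assoc, TW_succ, ih (by omega), pB_succ]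
      have e1 : (l * q + r) / l = q := by
        rw [Nat.mul_add_div hl, Nat.div_eq_of_lt (by omega), add_zero]
      have e2 : (l * q + r) % l = r := by
        rw [Nat.mul_add_mod, Nat.mod_eq_of_lt (by omega)]
      have : w ^ tw g s l (l * q + r) = w ^ q * w ^ (g (s q) r) := by
        rw [tw, e1, e2, ← pow_add]
        apply pow_congr3 hw
        omega
      rw [this]; ring
  have base : ∀ q, TW w g s l (l * q) = pB w g 0 l * EE w q + (pB w g 1 l - pB w g 0 l) * SS w s q := by
    intro q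
    induction q with
    | zero => simp [TW, EE, SS]
    | succ q ih =>
      have : l * (q + 1) = l * q + l := by ring
      rw [this, step q l le_rfl, ih, EE_succ, SS_succ,
        binary_split (hs q) (fun b => pB w g b l) rfl rfl]
      ring
  rw [step q r hr.le, base]

/-- a function counted by letters -/
theorem sum_by_letters (w : R) (f : ℕ → Fin 3) (n : ℕ) :
    ∑ k ∈ range n, w ^ ((f k : Fin 3) : ℕ)
      = ∑ a : Fin 3, (((range n).filter (fun k => f k = a)).card : R) * w ^ (a : ℕ) := by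
  rw [← Finset.sum_fiberwise (s := range n) (g := f) (f := fun k => w ^ ((f k : Fin 3) : ℕ))]
  apply Finset.sum_congr rfl
  intro a _
  rw [Finset.sum_congr rfl (g := fun _ => w ^ (a : ℕ))]
  · rw [Finset.sum_const, nsmul_eq_mul]
  · intro k hk
    rw [(Finset.mem_filter.mp hk).2]

/-- The ternary word has no abelian square of period at least `P`. -/
theorem main_word {w : R} (hw : w ^ 2 + w + 1 = 0) {s : ℕ → ℕ} (hs : ∀ i, s i < 2) {g : ℕ → ℕ → ℕ} {l P : ℕ}
    (hl : 0 < l) (hP : 0 < P)
    (cert : Cert w (pB w g 1 l - pB w g 0 l) (pB w g 0 l) (pB w g) l P 1)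
    (hno : ∀ a m, ¬ Sq w s a m) :
    ∃ x : ℕ → Fin 3, ∀ i n : ℕ, P ≤ n →
      ¬ (∀ a : Fin 3,
          ((Finset.range n).filter (fun k => x (i + k) = a)).card =
          ((Finset.range n).filter (fun k => x (i + n + k) = a)).card) := by
  have hlt : ∀ n, tw g s l n < 3 := fun n => Nat.mod_lt _ (by norm_num)
  refine ⟨fun n => ⟨tw g s l n, hlt n⟩, ?_⟩
  intro i n hn hc
  have hsum : ∑ k ∈ range n, w ^ (tw g s l (i + k)) = ∑ k ∈ range n, w ^ (tw g s l (i + n + k)) := by
    have h1 := sum_by_letters w (fun k => (⟨tw g s l (i + k), hlt _⟩ : Fin 3)) n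
    have h2 := sum_by_letters w (fun k => (⟨tw g s l (i + n + k), hlt _⟩ : Fin 3)) n
    simp only at h1 h2
    rw [h1, h2]
    apply Finset.sum_congr rfl
    intro a _
    have := hc a
    simp only at this
    rw [this]
  have hA : ∀ a m, TW w g s l (a + m) = TW w g s l a + ∑ k ∈ range m, w ^ (tw g s l (a + k)) := by
    intro a m
    simp only [TW]
    rw [Finset.sum_range_add]
  have heq : TW w g s l i + TW w g s l (i + n + n) = 2 * TW w g s l (i + n) := by
    rw [hA (i + n) n, hA i n, ← hsum]; ring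
  obtain ⟨a, m, hsq, _⟩ := desc (P := P) (t := 1) hw hs hl (one_dvd 3)
    (F := TW w g s l) (φ := pB w g) (fun q r hr => codeB hw hs hl q r hr) cert
    (n0 := i) (n1 := i + n) (n2 := i + n + n) (by omega) (by omega) (by rw [Nat.mod_one, Nat.mod_one]) heq
    (by omega)
  exact hno a m hsq

end Pool.Agent.K7.H27.MK
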