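import Mathlib
import Pool.Agent.K7.H27.MK.Code

set_option autoImplicit false

/-!
# Kernel check of the certificate over the Eisenstein integers
-/

namespace Pool.Agent.K7.H27.MK

open Finset

/-- Eisenstein integers `x + y ω`, `ω ^ 2 = -1 - ω` -/
abbrev Z := QuadraticAlgebra ℤ (-1) (-1)

/-- the cube root of unity -/
def om : Z := ⟨0, 1⟩

@[simp] theorem re1 : QuadraticAlgebra.re (1 : Z) = 1 := rfl
@[simp] theorem im1 : QuadraticAlgebra.im (1 : Z) = 0 := rfl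
@[simp] theorem re2 : QuadraticAlgebra.re (2 : Z) = 2 := rfl
@[simp] theorem im2 : QuadraticAlgebra.im (2 : Z) = 0 := rfl

theorem om_rel : om ^ 2 + om + 1 = 0 := by
  rw [pow_two]
  ext <;> simp [om]

/-- `w ^ k * (x + y w)` -/
def rt (k : ℕ) (x y : ℤ) : ℤ × ℤ :=
  match k with
  | 0 => (x, y)
  | 1 => (-y, x - y)
  | _ => (y - x, -x)

theorem om_sq : om ^ 2 = (⟨-1, -1⟩ : Z) := by
  rw [pow_two]
  ext <;> simp [om]

theorem rt_eq {k : ℕ} (hk : k < 3) (x y : ℤ) : om ^ k * (⟨x, y⟩ : Z) = ⟨(rt k x y).1, (rt k x y).2⟩ := by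
  interval_cases k
  · simp [rt]
  · rw [pow_one]; ext <;> simp [om, rt]; ring
  · rw [om_sq]; ext <;> simp [rt] <;> ring

/-- `EE om k` for `k < 3` -/
def ee (k : ℕ) : ℤ × ℤ :=
  match k with
  | 0 => (0, 0)
  | 1 => (1, 0)
  | _ => (1, 1)

theorem ee_eq {k : ℕ} (hk : k < 3) : EE om k = ⟨(ee k).1, (ee k).2⟩ := by
  interval_cases k
  · simp [EE, ee]; rfl
  · simp [EE, ee]; rfl
  · simp only [EE, sum_range_succ, sum_range_zero, ee]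
    ext <;> simp [om]

/-- Boolean form of `Mat` -/
def matb (P L c δ r0 r1 b0 b1 b2 : ℕ) (d1 d2 : ℤ) : Bool :=
  (c == 1 && δ == 0 && (d2 == 0) && ((d1 == 0) || (d1 == (b0 : ℤ) + b2 - 2 * b1)) &&
      (b0 != b1 || b1 != b2 || Nat.blt r1 (r0 + P))) ||
  (c == 0 && δ == 2 && (d1 == 2 * (b1 : ℤ) - b2) && (d2 == 2 * (b1 : ℤ) - b2)) ||
  (c == 0 && δ == 0 && (d2 == 0) && (d1 == (b0 : ℤ) - 2 * b1) && (b0 != b1 || Nat.blt r1 (r0 + P))) ||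
  (c == 2 && δ == 1 && (d2 == 0) && (d1 == (b0 : ℤ)) && (b1 != b2 || Nat.blt (L + r1) (r0 + P))) ||
  (c == 2 && δ == 0 && (d1 == -(b2 : ℤ)) && (d2 == -(b2 : ℤ)))

theorem blt_lt {a b : ℕ} (h : Nat.blt a b = true) : a < b := by
  have := Nat.le_of_ble_eq_true h
  omega

theorem matb_sound {P L c δ r0 r1 b0 b1 b2 : ℕ} {d1 d2 : ℤ}
    (h : matb P L c δ r0 r1 b0 b1 b2 d1 d2 = true) :
    Mat om P L c δ r0 r1 b0 b1 b2 (⟨d1, d2⟩ : Z) := by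
  simp only [matb, Bool.or_eq_true, Bool.and_eq_true, beq_iff_eq, bne_iff_ne, ne_eq] at h
  rcases h with (((h | h) | h) | h) | h
  · obtain ⟨⟨⟨⟨hc, hd⟩, h2⟩, h1⟩, h3⟩ := h
    refine Or.inl ⟨hc, hd, ?_, ?_⟩
    · rcases h1 with h1 | h1
      · left; ext <;> simp [h1, h2]
      · right; ext <;> simp [h1, h2]
    · intro e1 e2
      rcases h3 with (h3 | h3) | h3
      · exact absurd e1 h3
      · exact absurd e2 h3
      · exact blt_lt h3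
  · obtain ⟨⟨⟨hc, hd⟩, h1⟩, h2⟩ := h
    refine Or.inr (Or.inl ⟨hc, hd, ?_⟩)
    rw [om_sq]; ext <;> simp [h1, h2]
  · obtain ⟨⟨⟨⟨hc, hd⟩, h2⟩, h1⟩, h3⟩ := h
    refine Or.inr (Or.inr (Or.inl ⟨hc, hd, ?_, ?_⟩))
    · ext <;> simp [h1, h2]
    · intro e1
      rcases h3 with h3 | h3
      · exact absurd e1 h3
      · exact blt_lt h3
  · obtain ⟨⟨⟨⟨hc, hd⟩, h2⟩, h1⟩, h3⟩ := h
    refine Or.inr (Or.inr (Or.inr (Or.inl ⟨hc, hd, ?_, ?_⟩)))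
    · ext <;> simp [h1, h2]
    · intro e1
      rcases h3 with h3 | h3
      · exact absurd e1 h3
      · exact blt_lt h3
  · obtain ⟨⟨⟨hc, hd⟩, h1⟩, h2⟩ := h
    refine Or.inr (Or.inr (Or.inr (Or.inr ⟨hc, hd, ?_⟩)))
    rw [om_sq]; ext <;> simp [h1, h2]

/-- exact test of one triple with the vector `X = (X1, X2)` -/
def okE (ma mb N : ℤ) (P L c δ r0 r1 b0 b1 b2 : ℕ) (X1 X2 : ℤ) : Bool :=
  (decide ((X1 * (ma - mb) + X2 * mb) % N ≠ 0)) || (decide ((X2 * ma - X1 * mb) % N ≠ 0)) ||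
    matb P L c δ r0 r1 b0 b1 b2 ((X1 * (ma - mb) + X2 * mb) / N) ((X2 * ma - X1 * mb) / N)

theorem okE_sound {ma mb N : ℤ} (hN : N = ma * ma - ma * mb + mb * mb) (hN0 : 0 < N)
    {P L c δ r0 r1 b0 b1 b2 : ℕ} {X1 X2 : ℤ} (h : okE ma mb N P L c δ r0 r1 b0 b1 b2 X1 X2 = true) (d : Z)
    (hd : (⟨X1, X2⟩ : Z) = (⟨ma, mb⟩ : Z) * d) : Mat om P L c δ r0 r1 b0 b1 b2 d := by
  obtain ⟨d1, d2⟩ := d
  have e1 : X1 = ma * d1 - mb * d2 := by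
    have := congrArg QuadraticAlgebra.re hd
    simp at this; linarith
  have e2 : X2 = ma * d2 + mb * d1 - mb * d2 := by
    have := congrArg QuadraticAlgebra.im hd
    simp at this; linarith
  have u1 : X1 * (ma - mb) + X2 * mb = N * d1 := by rw [e1, e2, hN]; ring
  have u2 : X2 * ma - X1 * mb = N * d2 := by rw [e1, e2, hN]; ring
  rw [okE, u1, u2] at h
  simp only [Int.mul_emod_right, ne_eq, not_true_eq_false, decide_false, Bool.false_or] at h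
  rw [Int.mul_ediv_cancel_left _ hN0.ne', Int.mul_ediv_cancel_left _ hN0.ne'] at h
  exact matb_sound h

/-- data of a certificate -/
structure Dat where
  /-- block length -/
  L : ℕ
  /-- least forbidden period -/
  P : ℕ
  /-- modulus of the period condition -/
  t : ℕ
  /-- norm -/
  N : ℕ
  /-- `μ` -/
  ma : ℤ
  /-- `μ` -/
  mb : ℤ
  /-- `C0` -/
  ca : ℤ
  /-- `C0` -/
  cb : ℤ
  /-- image of `ω` modulo `N` -/
  ka : ℤ
  /-- coordinates of the paths -/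
  fx : ℕ → ℕ → ℤ
  /-- coordinates of the paths -/
  fy : ℕ → ℕ → ℤ
  /-- residues of `ω ^ k φ b r` -/
  rs : ℕ → ℕ → ℕ → ℕ
  /-- residues of `- 2 ω ^ k φ b r` -/
  ng : ℕ → ℕ → ℕ → ℕ
  /-- residues of the constant -/
  cs : ℕ → ℕ → ℕ

/-- the constant vector -/
def Dat.cv (D : Dat) (δ c : ℕ) : ℤ × ℤ :=
  let u := (ee ((2 * δ + 4 - c) % 3)).1 - 2 * (ee δ).1
  let v := (ee ((2 * δ + 4 - c) % 3)).2 - 2 * (ee δ).2
  (D.ca * u - D.cb * v, D.ca * v + D.cb * u - D.cb * v)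

/-- first coordinate of `X` -/
def Dat.X1 (D : Dat) (r0 r1 r2 c δ b0 b1 b2 : ℕ) : ℤ :=
  (D.cv δ c).1 + D.fx b0 r0 + (rt ((2 * δ + 4 - c) % 3) (D.fx b2 r2) (D.fy b2 r2)).1
    - 2 * (rt δ (D.fx b1 r1) (D.fy b1 r1)).1

/-- second coordinate of `X` -/
def Dat.X2 (D : Dat) (r0 r1 r2 c δ b0 b1 b2 : ℕ) : ℤ :=
  (D.cv δ c).2 + D.fy b0 r0 + (rt ((2 * δ + 4 - c) % 3) (D.fx b2 r2) (D.fy b2 r2)).2
    - 2 * (rt δ (D.fx b1 r1) (D.fy b1 r1)).2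

/-- test of one triple -/
def Dat.okT (D : Dat) (r0 r1 r2 c δ b0 b1 b2 : ℕ) : Bool :=
  Nat.ble 1 ((D.rs b0 0 r0 + D.rs b2 ((2 * δ + 4 - c) % 3) r2 + D.ng b1 δ r1 + D.cs δ c) % D.N) ||
    okE D.ma D.mb D.N D.P D.L c δ r0 r1 b0 b1 b2 (D.X1 r0 r1 r2 c δ b0 b1 b2) (D.X2 r0 r1 r2 c δ b0 b1 b2)

/-- the tables are correct -/
structure Dat.Good (D : Dat) : Prop where
  hN : (D.N : ℤ) = D.ma * D.ma - D.ma * D.mb + D.mb * D.mb
  hN0 : 0 < D.N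
  hL : 0 < D.L
  k1 : (D.ma + D.ka * D.mb) % D.N = 0
  k2 : (-D.mb + D.ka * D.ma - D.ka * D.mb) % D.N = 0
  hrs : ∀ r, r < D.L → ∀ b, b < 2 → ∀ k, k < 3 →
    ((D.rs b k r : ℕ) : ℤ) = ((rt k (D.fx b r) (D.fy b r)).1 + D.ka * (rt k (D.fx b r) (D.fy b r)).2) % D.N
  hng : ∀ r, r < D.L → ∀ b, b < 2 → ∀ k, k < 3 →
    ((D.ng b k r : ℕ) : ℤ) = (-2 * ((rt k (D.fx b r) (D.fy b r)).1 + D.ka * (rt k (D.fx b r) (D.fy b r)).2)) % D.N
  hcs : ∀ δ, δ < 3 → ∀ c, c < 3 →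
    ((D.cs δ c : ℕ) : ℤ) = ((D.cv δ c).1 + D.ka * (D.cv δ c).2) % D.N

theorem Dat.okT_sound {D : Dat} (hD : D.Good) {r0 r1 r2 c δ b0 b1 b2 : ℕ} (h0 : r0 < D.L) (h1 : r1 < D.L)
    (h2 : r2 < D.L) (hc : c < 3) (hδ : δ < 3) (hb0 : b0 < 2) (hb1 : b1 < 2) (hb2 : b2 < 2)
    (hok : D.okT r0 r1 r2 c δ b0 b1 b2 = true) (d : Z)
    (hd : (⟨D.X1 r0 r1 r2 c δ b0 b1 b2, D.X2 r0 r1 r2 c δ b0 b1 b2⟩ : Z) = (⟨D.ma, D.mb⟩ : Z) * d) :
    Mat om D.P D.L c δ r0 r1 b0 b1 b2 d := by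
  have hN0 : (0 : ℤ) < D.N := by exact_mod_cast hD.hN0
  have he3 : (2 * δ + 4 - c) % 3 < 3 := Nat.mod_lt _ (by norm_num)
  rw [Dat.okT, Bool.or_eq_true] at hok
  rcases hok with hok | hok
  · exfalso
    have hge := Nat.le_of_ble_eq_true hok
    have hz : (((D.rs b0 0 r0 + D.rs b2 ((2 * δ + 4 - c) % 3) r2 + D.ng b1 δ r1 + D.cs δ c) % D.N : ℕ) : ℤ) = 0 := by
      push_cast
      rw [hD.hrs r0 h0 b0 hb0 0 (by norm_num), hD.hrs r2 h2 b2 hb2 _ he3, hD.hng r1 h1 b1 hb1 δ hδ,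
        hD.hcs δ hδ c hc]
      have m1 := Int.emod_emod_of_dvd
      obtain ⟨d1, d2⟩ := d
      have e1 : D.X1 r0 r1 r2 c δ b0 b1 b2 = D.ma * d1 - D.mb * d2 := by
        have := congrArg QuadraticAlgebra.re hd
        simp at this; linarith
      have e2 : D.X2 r0 r1 r2 c δ b0 b1 b2 = D.ma * d2 + D.mb * d1 - D.mb * d2 := by
        have := congrArg QuadraticAlgebra.im hd
        simp at this; linarith
      have hdvd : (D.N : ℤ) ∣ D.X1 r0 r1 r2 c δ b0 b1 b2 + D.ka * D.X2 r0 r1 r2 c δ b0 b1 b2 := by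
        rw [e1, e2]
        have a1 : (D.N : ℤ) ∣ (D.ma + D.ka * D.mb) := Int.dvd_of_emod_eq_zero hD.k1
        have a2 : (D.N : ℤ) ∣ (-D.mb + D.ka * D.ma - D.ka * D.mb) := Int.dvd_of_emod_eq_zero hD.k2
        have : D.ma * d1 - D.mb * d2 + D.ka * (D.ma * d2 + D.mb * d1 - D.mb * d2)
            = (D.ma + D.ka * D.mb) * d1 + (-D.mb + D.ka * D.ma - D.ka * D.mb) * d2 := by ring
        rw [this]
        exact dvd_add (a1.mul_right _) (a2.mul_right _)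
      have hcong : ∀ x : ℤ, x % (D.N : ℤ) ≡ x [ZMOD (D.N : ℤ)] := fun x => Int.mod_modEq x _
      have hsum := (((hcong ((rt 0 (D.fx b0 r0) (D.fy b0 r0)).1 + D.ka * (rt 0 (D.fx b0 r0) (D.fy b0 r0)).2)).add
        (hcong ((rt ((2 * δ + 4 - c) % 3) (D.fx b2 r2) (D.fy b2 r2)).1
          + D.ka * (rt ((2 * δ + 4 - c) % 3) (D.fx b2 r2) (D.fy b2 r2)).2))).add
        (hcong (-2 * ((rt δ (D.fx b1 r1) (D.fy b1 r1)).1 + D.ka * (rt δ (D.fx b1 r1) (D.fy b1 r1)).2)))).add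
        (hcong ((D.cv δ c).1 + D.ka * (D.cv δ c).2))
      rw [hsum]
      have hX : (rt 0 (D.fx b0 r0) (D.fy b0 r0)).1 + D.ka * (rt 0 (D.fx b0 r0) (D.fy b0 r0)).2
          + ((rt ((2 * δ + 4 - c) % 3) (D.fx b2 r2) (D.fy b2 r2)).1
          + D.ka * (rt ((2 * δ + 4 - c) % 3) (D.fx b2 r2) (D.fy b2 r2)).2)
          + (-2 * ((rt δ (D.fx b1 r1) (D.fy b1 r1)).1 + D.ka * (rt δ (D.fx b1 r1) (D.fy b1 r1)).2))
          + ((D.cv δ c).1 + D.ka * (D.cv δ c).2)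
          = D.X1 r0 r1 r2 c δ b0 b1 b2 + D.ka * D.X2 r0 r1 r2 c δ b0 b1 b2 := by
        simp only [Dat.X1, Dat.X2, rt]; ring
      rw [hX]
      exact Int.emod_eq_zero_of_dvd hdvd
    have : (D.rs b0 0 r0 + D.rs b2 ((2 * δ + 4 - c) % 3) r2 + D.ng b1 δ r1 + D.cs δ c) % D.N = 0 := by
      exact_mod_cast hz
    omega
  · exact okE_sound hD.hN hN0 hok d hd

/-- all eight choices of the bits, for one `δ` -/
def Dat.okB (D : Dat) (r0 r1 r2 c δ : ℕ) : Bool :=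
  D.okT r0 r1 r2 c δ 0 0 0 && D.okT r0 r1 r2 c δ 0 0 1 && D.okT r0 r1 r2 c δ 0 1 0 &&
  D.okT r0 r1 r2 c δ 0 1 1 && D.okT r0 r1 r2 c δ 1 0 0 && D.okT r0 r1 r2 c δ 1 0 1 &&
  D.okT r0 r1 r2 c δ 1 1 0 && D.okT r0 r1 r2 c δ 1 1 1

/-- one `δ`, with the phase condition -/
def Dat.okδ (D : Dat) (r0 r1 r2 c δ : ℕ) : Bool :=
  (!(Nat.beq ((δ * D.L + r1) % D.t) (r0 % D.t))) || D.okB r0 r1 r2 c δ

/-- one pair of positions -/
def Dat.okP (D : Dat) (r1 r0 : ℕ) : Bool :=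
  D.okδ r0 r1 ((2 * r1 + D.L - r0) % D.L) (2 - (2 * r1 + D.L - r0) / D.L) 0 &&
  D.okδ r0 r1 ((2 * r1 + D.L - r0) % D.L) (2 - (2 * r1 + D.L - r0) / D.L) 1 &&
  D.okδ r0 r1 ((2 * r1 + D.L - r0) % D.L) (2 - (2 * r1 + D.L - r0) / D.L) 2

/-- bounded quantifier -/
def allB (f : ℕ → Bool) : ℕ → Bool
  | 0 => true
  | n + 1 => f n && allB f n

theorem allB_sound {f : ℕ → Bool} {n : ℕ} (h : allB f n = true) : ∀ i, i < n → f i = true := by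
  induction n with
  | zero => intro i hi; omega
  | succ n ih =>
    rw [allB, Bool.and_eq_true] at h
    intro i hi
    rcases Nat.lt_succ_iff_lt_or_eq.mp hi with h1 | h1
    · exact ih h.2 i h1
    · rw [h1]; exact h.1

/-- rows `lo, ..., lo + n - 1` -/
def Dat.rows (D : Dat) (lo n : ℕ) : Bool := allB (fun i => allB (fun r0 => D.okP (lo + i) r0) D.L) n

theorem Dat.cert {D : Dat} (hD : D.Good) {φ : ℕ → ℕ → Z}
    (hφ : ∀ b, b < 2 → ∀ r, r ≤ D.L → φ b r = ⟨D.fx b r, D.fy b r⟩)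
    (hrow : ∀ r1, r1 < D.L → ∀ r0, r0 < D.L → D.okP r1 r0 = true) :
    Cert om (⟨D.ma, D.mb⟩ : Z) (⟨D.ca, D.cb⟩ : Z) φ D.L D.P D.t := by
  intro r0 r1 r2 c δ b0 b1 b2 h0 h1 h2 hc hδ hb0 hb1 hb2 hr ht d hd
  have hL := hD.hL
  have hv : 2 * r1 + D.L - r0 = r2 + D.L * (2 - c) := by
    have : D.L * (2 - c) + D.L * c = D.L * 2 := by rw [← Nat.mul_add]; congr 1; omega
    omega
  have hr2 : (2 * r1 + D.L - r0) % D.L = r2 := by
    rw [hv, Nat.add_mul_mod_self_left, Nat.mod_eq_of_lt h2]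
  have hcc : 2 - (2 * r1 + D.L - r0) / D.L = c := by
    rw [hv, Nat.add_mul_div_left _ _ hL, Nat.div_eq_of_lt h2]; omega
  have hrw := hrow r1 h1 r0 h0
  rw [Dat.okP, hr2, hcc, Bool.and_eq_true, Bool.and_eq_true] at hrw
  have hδ' : D.okδ r0 r1 r2 c δ = true := by
    interval_cases δ
    · exact hrw.1.1
    · exact hrw.1.2
    · exact hrw.2
  have hB : D.okB r0 r1 r2 c δ = true := by
    rw [Dat.okδ, ht, Bool.or_eq_true] at hδ'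
    rcases hδ' with h | h
    · simp at h
    · exact h
  have hT : D.okT r0 r1 r2 c δ b0 b1 b2 = true := by
    simp only [Dat.okB, Bool.and_eq_true] at hB
    obtain ⟨⟨⟨⟨⟨⟨⟨a0, a1⟩, a2⟩, a3⟩, a4⟩, a5⟩, a6⟩, a7⟩ := hB
    interval_cases b0 <;> interval_cases b1 <;> interval_cases b2 <;> assumption
  refine Dat.okT_sound hD h0 h1 h2 hc hδ hb0 hb1 hb2 hT d ?_
  rw [← hd]
  have he3 : (2 * δ + 4 - c) % 3 < 3 := Nat.mod_lt _ (by norm_num)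
  rw [hφ b0 hb0 r0 h0.le, hφ b1 hb1 r1 h1.le, hφ b2 hb2 r2 h2.le, rt_eq he3, mul_assoc 2 (om ^ δ),
    rt_eq hδ, ee_eq he3, ee_eq hδ]
  ext
  · simp [Dat.X1, Dat.cv]; ring
  · simp [Dat.X2, Dat.cv]; ring

/-- 16-bit table look-up -/
def tb (T r : ℕ) : ℕ := (T >>> (16 * r)) % 65536

/-- binary block from a number -/
def bitA (T i : ℕ) : ℕ := (T >>> i) % 2

/-- ternary block from a number -/
def bitB (T i : ℕ) : ℕ := (T >>> (2 * i)) % 4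

theorem bitA_lt (T i : ℕ) : bitA T i < 2 := Nat.mod_lt _ (by norm_num)

theorem pathA {h : ℕ → ℕ → ℕ} {fx fy : ℕ → ℕ → ℤ} {L : ℕ} {b : ℕ} (h0 : fx b 0 = 0 ∧ fy b 0 = 0)
    (hs : ∀ r, r < L → fx b (r + 1) = fx b r + (rt (r % 3) (h b r) 0).1 ∧
      fy b (r + 1) = fy b r + (rt (r % 3) (h b r) 0).2) :
    ∀ r, r ≤ L → pA om h b r = ⟨fx b r, fy b r⟩ := by
  intro r
  induction r with
  | zero => intro _; rw [h0.1, h0.2]; simp [pA]; rfl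
  | succ r ih =>
    intro hr
    have hp : om ^ r = om ^ (r % 3) := pow_congr3 om_rel (Nat.mod_mod r 3).symm
    have hc : (h b r : Z) = ⟨(h b r : ℤ), 0⟩ := by ext <;> simp
    rw [pA_succ, ih (by omega), hp, mul_comm, hc, rt_eq (Nat.mod_lt _ (by norm_num)), (hs r (by omega)).1,
      (hs r (by omega)).2]
    ext <;> simp

theorem pathB {g : ℕ → ℕ → ℕ} {fx fy : ℕ → ℕ → ℤ} {L : ℕ} {b : ℕ} (h0 : fx b 0 = 0 ∧ fy b 0 = 0)
    (hs : ∀ r, r < L → g b r < 3 ∧ fx b (r + 1) = fx b r + (rt (g b r) 1 0).1 ∧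
      fy b (r + 1) = fy b r + (rt (g b r) 1 0).2) :
    ∀ r, r ≤ L → pB om g b r = ⟨fx b r, fy b r⟩ := by
  intro r
  induction r with
  | zero => intro _; rw [h0.1, h0.2]; simp [pB]; rfl
  | succ r ih =>
    intro hr
    have hc : om ^ (g b r) = om ^ (g b r) * (⟨1, 0⟩ : Z) := by
      have : (⟨1, 0⟩ : Z) = 1 := rfl
      rw [this, mul_one]
    rw [pB_succ, ih (by omega), hc, rt_eq (hs r (by omega)).1, (hs r (by omega)).2.1,
      (hs r (by omega)).2.2]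
    ext <;> simp

end Pool.Agent.K7.H27.MK
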