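import Mathlib
import Pool.Agent.K7.H27.MK.Chk

set_option autoImplicit false

/-!
# Reading off one row of the check
-/

namespace Pool.Agent.K7.H27.MK

theorem rowg {D : Dat} {lo n : ℕ} (h : D.rows lo n = true) (r1 : ℕ) (h1 : lo ≤ r1) (h2 : r1 < lo + n)
    (r0 : ℕ) (h0 : r0 < D.L) : D.okP r1 r0 = true := by
  have h3 := allB_sound h (r1 - lo) (by omega)
  have h4 := allB_sound h3 r0 h0
  have : lo + (r1 - lo) = r1 := by omega
  rwa [this] at h4

end Pool.Agent.K7.H27.MK
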