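import Pool.Agent.K7.H27.MK.Row
import Pool.Agent.K7.H27.MK.SkelD

set_option autoImplicit false

/-!
# Rows 100 to 199 of the check for `SkelD`, in pieces
-/

namespace Pool.Agent.K7.H27.MK.SkelC1

theorem a0 : SkelD.D.rows 100 10 = true := by decide +kernel

theorem a1 : SkelD.D.rows 110 10 = true := by decide +kernel

theorem a2 : SkelD.D.rows 120 10 = true := by decide +kernel

theorem a3 : SkelD.D.rows 130 10 = true := by decide +kernel

theorem a4 : SkelD.D.rows 140 10 = true := by decide +kernel

theorem a5 : SkelD.D.rows 150 10 = true := by decide +kernel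

theorem a6 : SkelD.D.rows 160 10 = true := by decide +kernel

theorem a7 : SkelD.D.rows 170 10 = true := by decide +kernel

theorem a8 : SkelD.D.rows 180 10 = true := by decide +kernel

theorem a9 : SkelD.D.rows 190 10 = true := by decide +kernel

theorem all (r1 : ℕ) (h0 : 100 ≤ r1) (h1 : r1 < 200) (r0 : ℕ) (hr : r0 < SkelD.D.L) : SkelD.D.okP r1 r0 = true := by
  obtain ⟨k, hk⟩ : ∃ k, k = (r1 - 100) / 10 := ⟨_, rfl⟩
  have hk' : k < 10 := by omega
  interval_cases k
  · exact rowg a0 r1 (by omega) (by omega) r0 hr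
  · exact rowg a1 r1 (by omega) (by omega) r0 hr
  · exact rowg a2 r1 (by omega) (by omega) r0 hr
  · exact rowg a3 r1 (by omega) (by omega) r0 hr
  · exact rowg a4 r1 (by omega) (by omega) r0 hr
  · exact rowg a5 r1 (by omega) (by omega) r0 hr
  · exact rowg a6 r1 (by omega) (by omega) r0 hr
  · exact rowg a7 r1 (by omega) (by omega) r0 hr
  · exact rowg a8 r1 (by omega) (by omega) r0 hr
  · exact rowg a9 r1 (by omega) (by omega) r0 hr

end Pool.Agent.K7.H27.MK.SkelC1
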