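import Pool.Agent.K7.H27.MK.SkelC0
import Pool.Agent.K7.H27.MK.SkelC1
import Pool.Agent.K7.H27.MK.SkelC2

set_option autoImplicit false

/-!
# A binary sequence without additive squares in the rotating weights `1, ω, ω²`
-/

namespace Pool.Agent.K7.H27.MK.SkelF

open SkelD

theorem hrow (r1 : ℕ) (h1 : r1 < D.L) (r0 : ℕ) (h0 : r0 < D.L) : D.okP r1 r0 = true := by
  have hL : D.L = 301 := rfl
  rw [hL] at h1
  rcases Nat.lt_or_ge r1 100 with h | h
  · exact SkelC0.all r1 (by omega) (by omega) r0 h0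
  · rcases Nat.lt_or_ge r1 200 with h' | h'
    · exact SkelC1.all r1 (by omega) (by omega) r0 h0
    · exact SkelC2.all r1 (by omega) (by omega) r0 h0

theorem path (b : ℕ) (hb : b < 2) (r : ℕ) (hr : r ≤ D.L) : pA om wd b r = ⟨D.fx b r, D.fy b r⟩ :=
  pathA (h := wd) (fx := fx) (fy := fy) (L := 301) (zero b hb) (fun r hr => steps r hr b hb) r hr

theorem cert : Cert om (pA om wd 1 301 - pA om wd 0 301) (pA om wd 0 301) (pA om wd) 301 1 3 := by
  have h := Dat.cert good path hrow
  have e0 : pA om wd 0 301 = (⟨D.ca, D.cb⟩ : Z) := by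
    rw [path 0 (by norm_num) 301 (le_refl _)]
    have := ends
    ext
    · exact this.1
    · exact this.2.1
  have e1 : pA om wd 1 301 - pA om wd 0 301 = (⟨D.ma, D.mb⟩ : Z) := by
    rw [path 1 (by norm_num) 301 (le_refl _), path 0 (by norm_num) 301 (le_refl _)]
    have := ends
    ext
    · show fx 1 301 - fx 0 301 = D.ma
      rw [this.1, this.2.2.1]; rfl
    · show fy 1 301 - fy 0 301 = D.mb
      rw [this.2.1, this.2.2.2]; rfl
  rw [e1, e0]
  exact h

theorem wd_lt (b i : ℕ) : wd b i < 2 := by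
  unfold wd
  split
  · exact bitA_lt _ _
  · exact bitA_lt _ _

/-- the sequence -/
def s : ℕ → ℕ := sk wd 301

theorem s_lt (i : ℕ) : s i < 2 := sk_lt wd_lt 301 i

theorem s_nosq (a m : ℕ) : ¬ Sq om s a m :=
  no_sq om_rel s_lt (by norm_num) (by norm_num)
    (fun q r hr => sk_eq (by norm_num) (by decide +kernel) q r hr) cert a m

end Pool.Agent.K7.H27.MK.SkelF
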