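import Mathlib
import Pool.Agent.K7.H27.MK.Code

set_option autoImplicit false

/-!
# The explicit ternary word, and its short factors
-/

namespace Pool.Agent.K7.H27.MK

open Finset

variable {R : Type*} [CommRing R]

/-- the ternary word with letters in `Fin 3` -/
def xw (g : ℕ → ℕ → ℕ) (s : ℕ → ℕ) (l n : ℕ) : Fin 3 := ⟨tw g s l n, Nat.mod_lt _ (by norm_num)⟩

/-- The ternary word has no abelian square of period at least `P`. -/
theorem main_xw {w : R} (hw : w ^ 2 + w + 1 = 0) {s : ℕ → ℕ} (hs : ∀ i, s i < 2) {g : ℕ → ℕ → ℕ} {l P : ℕ}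
    (hl : 0 < l) (hP : 0 < P)
    (cert : Cert w (pB w g 1 l - pB w g 0 l) (pB w g 0 l) (pB w g) l P 1)
    (hno : ∀ a m, ¬ Sq w s a m) (i n : ℕ) (hn : P ≤ n)
    (hc : ∀ a : Fin 3,
          ((Finset.range n).filter (fun k => xw g s l (i + k) = a)).card =
          ((Finset.range n).filter (fun k => xw g s l (i + n + k) = a)).card) : False := by
  have hsum : ∑ k ∈ range n, w ^ (tw g s l (i + k)) = ∑ k ∈ range n, w ^ (tw g s l (i + n + k)) := by
    have h1 := sum_by_letters w (fun k => xw g s l (i + k)) n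
    have h2 := sum_by_letters w (fun k => xw g s l (i + n + k)) n
    have e1 : ∑ k ∈ range n, w ^ (tw g s l (i + k)) = ∑ k ∈ range n, w ^ ((xw g s l (i + k) : Fin 3) : ℕ) := rfl
    have e2 : ∑ k ∈ range n, w ^ (tw g s l (i + n + k))
        = ∑ k ∈ range n, w ^ ((xw g s l (i + n + k) : Fin 3) : ℕ) := rfl
    rw [e1, e2, h1, h2]
    apply Finset.sum_congr rfl
    intro a _
    rw [hc a]
  have hA : ∀ a m, TW w g s l (a + m) = TW w g s l a + ∑ k ∈ range m, w ^ (tw g s l (a + k)) := by
    intro a m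
    simp only [TW]
    rw [Finset.sum_range_add]
  have heq : TW w g s l i + TW w g s l (i + n + n) = 2 * TW w g s l (i + n) := by
    rw [hA (i + n) n, hA i n, ← hsum]; ring
  obtain ⟨a, m, hsq, _⟩ := desc (P := P) (t := 1) hw hs hl (one_dvd 3)
    (F := TW w g s l) (φ := pB w g) (fun q r hr => codeB hw hs hl q r hr) cert
    (n0 := i) (n1 := i + n) (n2 := i + n + n) (by omega) (by omega) (by rw [Nat.mod_one, Nat.mod_one]) heq
    (by omega)
  exact hno a m hsq

/-- letter number `j` of the block `g b` followed by the next block `g b'` shifted by one -/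
def lt2 (g : ℕ → ℕ → ℕ) (l b b' j : ℕ) : ℕ := if j < l then g b j else g b' (j - l) + 1

theorem tw_lt2 {g : ℕ → ℕ → ℕ} {s : ℕ → ℕ} {l : ℕ} (hl : 0 < l) (q j : ℕ) (hj : j < 2 * l) :
    tw g s l (l * q + j) = (lt2 g l (s q) (s (q + 1)) j + q) % 3 := by
  unfold lt2
  split_ifs with h
  · have e1 : (l * q + j) / l = q := by
      rw [Nat.mul_add_div hl, Nat.div_eq_of_lt h, add_zero]
    have e2 : (l * q + j) % l = j := by
      rw [Nat.mul_add_mod, Nat.mod_eq_of_lt h]
    rw [tw, e1, e2]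
  · have e0 : l * q + j = l * (q + 1) + (j - l) := by
      have : l * (q + 1) = l * q + l := by ring
      omega
    have e1 : (l * (q + 1) + (j - l)) / l = q + 1 := by
      rw [Nat.mul_add_div hl, Nat.div_eq_of_lt (by omega), add_zero]
    have e2 : (l * (q + 1) + (j - l)) % l = j - l := by
      rw [Nat.mul_add_mod, Nat.mod_eq_of_lt (by omega)]
    rw [tw, e0, e1, e2]
    congr 1
    omega

/-- four consecutive letters do not form an abelian square unless they are equal -/
def FourP (g : ℕ → ℕ → ℕ) (l b b' r : ℕ) : Prop :=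
  (lt2 g l b b' r % 3 = lt2 g l b b' (r + 2) % 3 ∧ lt2 g l b b' (r + 1) % 3 = lt2 g l b b' (r + 3) % 3) ∨
    (lt2 g l b b' r % 3 = lt2 g l b b' (r + 3) % 3 ∧ lt2 g l b b' (r + 1) % 3 = lt2 g l b b' (r + 2) % 3) →
    lt2 g l b b' (r + 1) % 3 = lt2 g l b b' r % 3 ∧ lt2 g l b b' (r + 2) % 3 = lt2 g l b b' r % 3 ∧
      lt2 g l b b' (r + 3) % 3 = lt2 g l b b' r % 3

instance (g : ℕ → ℕ → ℕ) (l b b' r : ℕ) : Decidable (FourP g l b b' r) := by
  unfold FourP; infer_instance

theorem two_letters : ∀ a0 a1 a2 a3 : Fin 3,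
    (∀ a : Fin 3, (if a0 = a then 1 else 0) + (if a1 = a then 1 else 0)
      = ((if a2 = a then 1 else 0) + (if a3 = a then 1 else 0) : ℕ)) →
    (a0 = a2 ∧ a1 = a3) ∨ (a0 = a3 ∧ a1 = a2) := by
  decide

/-- The abelian squares of period at most two. -/
theorem short_xw {g : ℕ → ℕ → ℕ} {s : ℕ → ℕ} (hs : ∀ i, s i < 2) {l : ℕ} (hl : 4 ≤ l)
    (hf : ∀ r, r < l → ∀ b, b < 2 → ∀ b', b' < 2 → FourP g l b b' r) (i : ℕ)
    (hc : ∀ a : Fin 3,
          ((Finset.range 2).filter (fun k => xw g s l (i + k) = a)).card =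
          ((Finset.range 2).filter (fun k => xw g s l (i + 2 + k) = a)).card) :
    ∀ k, k < 4 → xw g s l (i + k) = xw g s l i := by
  have hc' := two_letters (xw g s l i) (xw g s l (i + 1)) (xw g s l (i + 2)) (xw g s l (i + 3)) (by
    intro a
    have h := hc a
    rw [Finset.card_filter, Finset.card_filter, Finset.sum_range_succ, Finset.sum_range_one,
      Finset.sum_range_succ, Finset.sum_range_one] at h
    exact h)
  have hl0 : 0 < l := by omega
  have e : l * (i / l) + i % l = i := Nat.div_add_mod i l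
  have hr : i % l < l := Nat.mod_lt _ hl0
  generalize i / l = q at *
  generalize i % l = r at *
  subst e
  have ht : ∀ k, k < 4 → tw g s l (l * q + r + k) = (lt2 g l (s q) (s (q + 1)) (r + k) + q) % 3 := by
    intro k hk
    rw [add_assoc]
    exact tw_lt2 hl0 q (r + k) (by omega)
  have t0 : tw g s l (l * q + r) = (lt2 g l (s q) (s (q + 1)) r + q) % 3 := ht 0 (by norm_num)
  have t1 := ht 1 (by norm_num)
  have t2 := ht 2 (by norm_num)
  have t3 := ht 3 (by norm_num)
  have hfour := hf r hr (s q) (hs q) (s (q + 1)) (hs (q + 1))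
  simp only [xw, Fin.mk.injEq, t0, t1, t2, t3] at hc'
  have h4 := hfour (by
    rcases hc' with ⟨u, v⟩ | ⟨u, v⟩
    · left; constructor <;> omega
    · right; constructor <;> omega)
  intro k hk
  simp only [xw, Fin.mk.injEq]
  interval_cases k
  · rfl
  · rw [t1, t0]; omega
  · rw [t2, t0]; omega
  · rw [t3, t0]; omega

end Pool.Agent.K7.H27.MK
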