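import Pool.Agent.K7.H27.MK.SkelF
import Pool.Agent.K7.H27.MK.UnW
import Pool.Agent.K7.H27.MK.UnC0
import Pool.Agent.K7.H27.MK.UnC1

set_option autoImplicit false

/-!
# An infinite ternary word whose only abelian squares are `aa` and `aaaa`
-/

namespace Pool.Agent.K7.H27.MK.UnF

open UnD

theorem hrow (r1 : ℕ) (h1 : r1 < D.L) (r0 : ℕ) (h0 : r0 < D.L) : D.okP r1 r0 = true := by
  have hL : D.L = 151 := rfl
  rw [hL] at h1
  rcases Nat.lt_or_ge r1 76 with h | h
  · exact UnC0.all r1 (by omega) (by omega) r0 h0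
  · exact UnC1.all r1 (by omega) (by omega) r0 h0

theorem path (b : ℕ) (hb : b < 2) (r : ℕ) (hr : r ≤ D.L) : pB om wd b r = ⟨D.fx b r, D.fy b r⟩ :=
  pathB (g := wd) (fx := fx) (fy := fy) (L := 151) (zero b hb) (fun r hr => steps r hr b hb) r hr

theorem cert : Cert om (pB om wd 1 151 - pB om wd 0 151) (pB om wd 0 151) (pB om wd) 151 3 1 := by
  have h := Dat.cert good path hrow
  have e0 : pB om wd 0 151 = (⟨D.ca, D.cb⟩ : Z) := by
    rw [path 0 (by norm_num) 151 (le_refl _)]
    have := ends
    ext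
    · exact this.1
    · exact this.2.1
  have e1 : pB om wd 1 151 - pB om wd 0 151 = (⟨D.ma, D.mb⟩ : Z) := by
    rw [path 1 (by norm_num) 151 (le_refl _), path 0 (by norm_num) 151 (le_refl _)]
    have := ends
    ext
    · show fx 1 151 - fx 0 151 = D.ma
      rw [this.1, this.2.2.1]; rfl
    · show fy 1 151 - fy 0 151 = D.mb
      rw [this.2.1, this.2.2.2]; rfl
  rw [e1, e0]
  exact h

theorem fours : ∀ r, r < 151 → ∀ b, b < 2 → ∀ b', b' < 2 → FourP wd 151 b b' r := by decide +kernel

theorem one_letter : ∀ a0 a1 : Fin 3,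
    (∀ a : Fin 3, (if a0 = a then 1 else 0) = (if a1 = a then 1 else 0 : ℕ)) → a0 = a1 := by decide

/-- There is an infinite ternary word in which every abelian square is `aa` or `aaaa` for a letter `a`. -/
theorem main : ∃ w : ℕ → Fin 3, ∀ i n : ℕ, 1 ≤ n →
      (∀ a : Fin 3,
          ((Finset.range n).filter (fun k => w (i + k) = a)).card =
          ((Finset.range n).filter (fun k => w (i + n + k) = a)).card) →
      n ≤ 2 ∧ ∀ k, k < 2 * n → w (i + k) = w i := by
  refine ⟨xw wd SkelF.s 151, ?_⟩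
  intro i n hn hc
  rcases Nat.lt_or_ge n 3 with h3 | h3
  · refine ⟨by omega, ?_⟩
    obtain rfl | rfl : n = 1 ∨ n = 2 := by omega
    · have h1 := one_letter (xw wd SkelF.s 151 i) (xw wd SkelF.s 151 (i + 1)) (by
        intro a
        have h := hc a
        rw [Finset.card_filter, Finset.card_filter, Finset.sum_range_one, Finset.sum_range_one] at h
        exact h)
      intro k hk
      interval_cases k
      · rfl
      · exact h1.symm
    · exact short_xw SkelF.s_lt (by norm_num) fours i hc
  · exact (main_xw om_rel SkelF.s_lt (by norm_num) (by norm_num) cert SkelF.s_nosq i n h3 hc).elim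

end Pool.Agent.K7.H27.MK.UnF
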